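import Pool.Agent.H16.TK.Stmt2

/-!
EDR: the direction of an equivalent flap (board tkx_modules).
-/

set_option autoImplicit false

open Set

namespace Pool.Agent.TK

namespace EDRaux

lemma exists_zip_left : ∀ {e e' : List ℕ}, e.length = e'.length → ∀ {x : ℕ}, x ∈ e →
    ∃ y, y ∈ e' ∧ (x, y) ∈ e.zip e'
  | [], e', _, x, hx => by simp at hx
  | (u :: e), [], h, x, hx => by simp at h
  | (u :: e), (u' :: e'), h, x, hx => by
    rcases List.mem_cons.1 hx with rfl | hx'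
    · exact ⟨u', by simp, by simp⟩
    · obtain ⟨y, hy, hz⟩ := exists_zip_left (e := e) (e' := e') (by simpa using h) hx'
      exact ⟨y, List.mem_cons_of_mem _ hy, by simp [hz]⟩

lemma exists_zip_right : ∀ {e e' : List ℕ}, e.length = e'.length → ∀ {y : ℕ}, y ∈ e' →
    ∃ x, x ∈ e ∧ (x, y) ∈ e.zip e'
  | [], e', h, y, hy => by
    rw [List.length_nil] at h
    rw [List.length_eq_zero_iff.1 h.symm] at hy
    simp at hy
  | (u :: e), [], h, y, hy => by simp at hy
  | (u :: e), (u' :: e'), h, y, hy => by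
    rcases List.mem_cons.1 hy with rfl | hy'
    · exact ⟨u, by simp, by simp⟩
    · obtain ⟨x, hx, hz⟩ := exists_zip_right (e := e) (e' := e') (by simpa using h) hy'
      exact ⟨x, List.mem_cons_of_mem _ hx, by simp [hz]⟩

variable {C : Type} {M N : St C}

lemma sub_left {p : List (ℕ × ℕ)} (hp : PI M N p) {e1 e1' e2 e2' : List ℕ}
    (h1 : e1.length = e1'.length) (h2 : e2.length = e2'.length)
    (hz1 : ∀ z ∈ e1.zip e1', z ∈ p) (hz2 : ∀ z ∈ e2.zip e2', z ∈ p)
    (hs : ms e1' ⊆ ms e2') : ms e1 ⊆ ms e2 := by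
  intro x hx
  obtain ⟨y, hy, hxy⟩ := exists_zip_left h1 hx
  obtain ⟨x2, hx2, hx2y⟩ := exists_zip_right h2 (hs hy)
  have := (hp.1 _ (hz1 _ hxy) _ (hz2 _ hx2y)).2 rfl
  simp only at this
  rw [this]
  exact hx2

lemma mem_iff {p : List (ℕ × ℕ)} (hp : PI M N p) {e e' : List ℕ} {v v' : ℕ}
    (h : e.length = e'.length) (hz : ∀ z ∈ e.zip e', z ∈ p) (hv : (v, v') ∈ p) :
    v ∈ e ↔ v' ∈ e' := by
  constructor
  · intro h1
    obtain ⟨y, hy, hxy⟩ := exists_zip_left h h1
    have := (hp.1 _ (hz _ hxy) _ hv).1 rfl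
    simp only at this
    rw [← this]
    exact hy
  · intro h1
    obtain ⟨x, hx, hxy⟩ := exists_zip_right h h1
    have := (hp.1 _ (hz _ hxy) _ hv).2 rfl
    simp only at this
    rw [← this]
    exact hx

lemma zip_app {a a' e e' : List ℕ} (h : a.length = a'.length) :
    ∀ z ∈ (a ++ e).zip (a' ++ e'), z ∈ e.zip e' ++ a.zip a' := by
  intro z hz
  rw [List.zip_append h] at hz
  rcases List.mem_append.1 hz with h | h
  · exact List.mem_append.2 (Or.inr h)
  · exact List.mem_append.2 (Or.inl h)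

/-- the data of the theorem -/
structure Dat (C : Type) (c0 : C) (b : Rk) (M N : St C) (w : Set ℕ → Set ℕ) (a a' : List ℕ)
    (D D' : Set ℕ) : Prop where
  hom : RLe C om b
  hM : Valid c0 M
  hN : Valid c0 N
  dir : IsDir M w
  wD : w (ms a) = D
  cpD' : IsCp N (ms a') D'
  len : a.length = a'.length
  ev : ∀ e : List ℕ, (∀ z ∈ e, z ∈ D) → ∀ v ∈ D, v ∉ e →
      (VB c0 b M (a ++ e) v ↔ v ∈ w (ms (a ++ e)))

variable {c0 : C} {b : Rk} {w : Set ℕ → Set ℕ} {a a' : List ℕ} {D D' : Set ℕ}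

lemma Dat.cpD (h : Dat C c0 b M N w a a' D D') : IsCp M (ms a) D := by
  rw [← h.wD]
  exact h.dir.1 _ (ms_finite a)

lemma Dat.sub (h : Dat C c0 b M N w a a' D D') (e : List ℕ) : w (ms (a ++ e)) ⊆ D := by
  rw [← h.wD]
  apply h.dir.2 _ _ (ms_finite _)
  rw [ms_append]
  exact subset_union_left

/-- transfer of very big components -/
lemma Dat.vb (h : Dat C c0 b M N w a a' D D') (hVBT : VBT C c0) {e e' : List ℕ} {v v' : ℕ}
    (hv : v ∈ D) (hv' : v' ∈ D') (hve : v ∉ e) (hve' : v' ∉ e')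
    (hle : e.length = e'.length) {p : List (ℕ × ℕ)} (hp : bf M N D D' (Rk.lim (W b)) p)
    (hz : ∀ z ∈ e.zip e' ++ a.zip a', z ∈ p) (hvp : (v, v') ∈ p) :
    VB c0 b M (a ++ e) v ↔ VB c0 b N (a' ++ e') v' := by
  have hDa : Disjoint D (ms a) := h.cpD.disj
  have hDa' : Disjoint D' (ms a') := h.cpD'.disj
  have hva : v ∉ a ++ e := by
    rw [List.mem_append]
    rintro (h1 | h1)
    · exact Set.disjoint_left.1 hDa hv h1
    · exact hve h1
  have hva' : v' ∉ a' ++ e' := by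
    rw [List.mem_append]
    rintro (h1 | h1)
    · exact Set.disjoint_left.1 hDa' hv' h1
    · exact hve' h1
  have hlen : (a ++ e).length = (a' ++ e').length := by
    rw [List.length_append, List.length_append, h.len, hle]
  have hsubM : cp M (ms (a ++ e)) v ⊆ D := cp_subset h.hM h.cpD (by rw [ms_append]; exact subset_union_left) hv
  have hsubN : cp N (ms (a' ++ e')) v' ⊆ D' := cp_subset h.hN h.cpD' (by rw [ms_append]; exact subset_union_left) hv'
  constructor
  · intro hvb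
    exact hVBT b h.hom M N D D' p (a ++ e) (a' ++ e') v v' h.hM h.hN hp hlen
      (fun z hz' => hz z (zip_app h.len z hz')) hvp hva hsubM hsubN hvb
  · intro hvb
    have hp' := bf_symm hp
    refine hVBT b h.hom N M D' D _ (a' ++ e') (a ++ e) v' v h.hN h.hM hp' hlen.symm ?_ ?_ hva' hsubN hsubM hvb
    · intro z hz'
      rw [← swap_zip] at hz'
      obtain ⟨z', hz1, rfl⟩ := List.mem_map.1 hz'
      exact List.mem_map.2 ⟨z', hz z' (zip_app h.len z' hz1), rfl⟩
    · exact List.mem_map.2 ⟨(v, v'), hvp, rfl⟩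

/-- the very big component -/
def VV (c0 : C) (b : Rk) (N : St C) (a' : List ℕ) (D' : Set ℕ) (e' : List ℕ) : Set ℕ :=
  {v' | v' ∈ D' ∧ v' ∉ e' ∧ VB c0 b N (a' ++ e') v'}

/-- matched points -/
lemma Dat.vv_iff (h : Dat C c0 b M N w a a' D D') (hVBT : VBT C c0) {e e' : List ℕ} {v v' : ℕ}
    (he : ∀ z ∈ e, z ∈ D) (hv : v ∈ D) (hv' : v' ∈ D') (hve' : v' ∉ e')
    (hle : e.length = e'.length) {p : List (ℕ × ℕ)} (hp : bf M N D D' (Rk.lim (W b)) p)
    (hz : ∀ z ∈ e.zip e' ++ a.zip a', z ∈ p) (hvp : (v, v') ∈ p) :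
    v' ∈ VV c0 b N a' D' e' ↔ v ∈ w (ms (a ++ e)) := by
  have hve : v ∉ e := by
    rw [mem_iff (bf_PI hp) hle (fun z hz' => hz z (List.mem_append.2 (Or.inl hz'))) hvp]
    exact hve'
  rw [← h.ev e he v hv hve, h.vb hVBT hv hv' hve hve' hle hp hz hvp]
  constructor
  · intro h1; exact h1.2.2
  · intro h1; exact ⟨hv', hve', h1⟩

/-- connectivity of matched points -/
lemma Dat.conn_iff (h : Dat C c0 b M N w a a' D D') (hCTR : CTR C) {e e' : List ℕ} {v v' u u' : ℕ}
    (hv : v ∈ D) (hv' : v' ∈ D') (hu : u ∈ D) (hu' : u' ∈ D')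
    (hle : e.length = e'.length) {p : List (ℕ × ℕ)} (hp : bf M N D D' om p)
    (hz : ∀ z ∈ e.zip e' ++ a.zip a', z ∈ p) (hvp : (v, v') ∈ p) (hup : (u, u') ∈ p) :
    Conn M (ms (a ++ e)) v u ↔ Conn N (ms (a' ++ e')) v' u' := by
  have hlen : (a ++ e).length = (a' ++ e').length := by
    rw [List.length_append, List.length_append, h.len, hle]
  have key : ∀ {K : St C} (hK : Valid c0 K) {B E : Set ℕ} {c : List ℕ}, IsCp K B E → B ⊆ ms c →
      ∀ {x y : ℕ}, x ∈ E → Conn K (ms c) x y → Conn K (Eᶜ ∪ ms c) x y := by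
    intro K hK B E c hE hB x y hx hxy
    have h1 : x ∉ ms c := hxy.not_left
    have h2 : IsCp K (ms c) (cp K (ms c) x) := isCp_cp h1
    have h3 : cp K (ms c) x ⊆ E := cp_subset hK hE hB hx
    have h4 := (h2.cd hK).2 x (self_mem_cp h1) y hxy
    refine h4.mono ?_
    rintro z (hz1 | hz1) hz2
    · exact hz1 (h3 hz2)
    · exact Set.disjoint_left.1 h2.disj hz2 hz1
  constructor
  · intro hc
    have h1 := key h.hM h.cpD (by rw [ms_append]; exact subset_union_left) hv hc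
    have h2 := hCTR M N D D' p (a ++ e) (a' ++ e') v v' u u' hp hlen
      (fun z hz' => hz z (zip_app h.len z hz')) hvp hup hv' hu' h1
    exact h2.mono subset_union_right
  · intro hc
    have h1 := key h.hN h.cpD' (by rw [ms_append]; exact subset_union_left) hv' hc
    have hp' := bf_symm hp
    have h2 := hCTR N M D' D _ (a' ++ e') (a ++ e) v' v u' u hp' hlen.symm (by
      intro z hz'
      rw [← swap_zip] at hz'
      obtain ⟨z', hz1, rfl⟩ := List.mem_map.1 hz'
      exact List.mem_map.2 ⟨z', hz z' (zip_app h.len z' hz1), rfl⟩)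
      (List.mem_map.2 ⟨(v, v'), hvp, rfl⟩) (List.mem_map.2 ⟨(u, u'), hup, rfl⟩) hv hu h1
    exact h2.mono subset_union_right

/-- the very big vertices form one component -/
lemma Dat.cp (h : Dat C c0 b M N w a a' D D') (hVBT : VBT C c0) (hCTR : CTR C)
    (hbf : bf M N D D' (Rk.lim (Rk.lim (Rk.lim (W b)))) (a.zip a')) {e' : List ℕ}
    (he' : ∀ z ∈ e', z ∈ D') : IsCp N (ms (a' ++ e')) (VV c0 b N a' D' e') := by
  have hoW : RLe C om (Rk.lim (W b)) := (RLe.om_W b).trans (RLe.lim _)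
  obtain ⟨e, hle, he, hp⟩ := lim_ext' hbf e' he'
  -- a point of the direction
  have hcp := h.dir.1 _ (ms_finite (a ++ e))
  obtain ⟨v, hv⟩ := hcp.nonempty
  have hvD : v ∈ D := h.sub e hv
  obtain ⟨y, hly, hyD, hp2⟩ := lim_ext_suc hp 1 [v] (by simpa using hvD)
  obtain ⟨v', rfl⟩ := List.length_eq_one_iff.1 hly
  have hvD' : v' ∈ D' := hyD v' (by simp)
  have hvp : ∀ q : List (ℕ × ℕ), (v, v') ∈ q ++ ([v].zip [v'] ++ (e.zip e' ++ a.zip a')) := by
    intro q; simp
  have hsub2 : ∀ q : List (ℕ × ℕ), ∀ z ∈ e.zip e' ++ a.zip a', z ∈ q ++ ([v].zip [v'] ++ (e.zip e' ++ a.zip a')) := by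
    intro q z hz
    exact List.mem_append.2 (Or.inr (List.mem_append.2 (Or.inr hz)))
  have hva : v ∉ ms (a ++ e) := fun h1 => Set.disjoint_left.1 hcp.disj hv h1
  have hve : v ∉ e := fun h1 => hva (by rw [ms_append]; exact Or.inr h1)
  have hve' : v' ∉ e' := by
    rw [← mem_iff (bf_PI hp2) hle (fun z hz' => hsub2 [] z (List.mem_append.2 (Or.inl hz'))) (hvp [])]
    exact hve
  have hva' : v' ∉ ms (a' ++ e') := by
    rw [ms_append]
    rintro (h1 | h1)
    · exact Set.disjoint_left.1 h.cpD'.disj hvD' h1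
    · exact hve' h1
  refine ⟨v', hva', ?_⟩
  have hsubN : Pool.Agent.TK.cp N (ms (a' ++ e')) v' ⊆ D' :=
    cp_subset h.hN h.cpD' (by rw [ms_append]; exact subset_union_left) hvD'
  have hmain : ∀ u' ∈ D', u' ∉ e' → (u' ∈ VV c0 b N a' D' e' ↔ Conn N (ms (a' ++ e')) v' u') := by
    intro u' hu' hue'
    obtain ⟨x, hlx, hxD, hp3⟩ := ext_many' [u'] rfl hp2 (by simpa using hu')
    obtain ⟨u, rfl⟩ := List.length_eq_one_iff.1 hlx
    have huD : u ∈ D := hxD u (by simp)
    have hup : (u, u') ∈ [u].zip [u'] ++ ([v].zip [v'] ++ (e.zip e' ++ a.zip a')) := by simp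
    rw [h.vv_iff hVBT he huD hu' hue' hle hp3 (hsub2 _) hup]
    rw [← h.conn_iff hCTR hvD hvD' huD hu' hle (hoW _ _ _ _ _ hp3) (hsub2 _) (hvp _) hup]
    rw [hcp.eq_cp h.hM hv]
    rfl
  ext u'
  constructor
  · intro hu'
    exact (hmain u' hu'.1 hu'.2.1).1 hu'
  · intro hu'
    have h1 : u' ∈ D' := hsubN hu'
    have h2 : u' ∉ e' := fun h3 => Conn.not_right hu' (by rw [ms_append]; exact Or.inr h3)
    exact (hmain u' h1 h2).2 hu'

/-- monotonicity -/
lemma Dat.anti (h : Dat C c0 b M N w a a' D D') (hVBT : VBT C c0)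
    (hbf : bf M N D D' (Rk.lim (Rk.lim (Rk.lim (W b)))) (a.zip a')) {e1' e2' : List ℕ}
    (he1' : ∀ z ∈ e1', z ∈ D') (he2' : ∀ z ∈ e2', z ∈ D') (hs : ms e1' ⊆ ms e2') :
    VV c0 b N a' D' e2' ⊆ VV c0 b N a' D' e1' := by
  intro v' hv'
  obtain ⟨x, hlx, hxD, hp⟩ := lim_ext' hbf (e1' ++ e2') (by
    intro z hz
    rcases List.mem_append.1 hz with h1 | h1
    · exact he1' z h1
    · exact he2' z h1)
  rw [List.length_append] at hlx
  obtain ⟨e1, e2, rfl, hl1, hl2⟩ : ∃ e1 e2, x = e1 ++ e2 ∧ e1.length = e1'.length ∧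
      e2.length = e2'.length := by
    refine ⟨x.take e1'.length, x.drop e1'.length, (List.take_append_drop _ _).symm, ?_, ?_⟩
    · rw [List.length_take]; omega
    · rw [List.length_drop]; omega
  rw [List.zip_append hl1] at hp
  have hp1 := RLe.lim' (C := C) 0 (Rk.lim (W b)) _ _ _ _ _ hp
  obtain ⟨y, hly, hyD, hp2⟩ := lim_ext' hp [v'] (by simpa using hv'.1)
  obtain ⟨v, rfl⟩ := List.length_eq_one_iff.1 hly
  have hvD : v ∈ D := hyD v (by simp)
  have hvp : (v, v') ∈ [v].zip [v'] ++ (e1.zip e1' ++ e2.zip e2' ++ a.zip a') := by simp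
  have hz1 : ∀ z ∈ e1.zip e1' ++ a.zip a', z ∈ [v].zip [v'] ++ (e1.zip e1' ++ e2.zip e2' ++ a.zip a') := by
    intro z hz
    rcases List.mem_append.1 hz with h1 | h1
    · exact List.mem_append.2 (Or.inr (List.mem_append.2 (Or.inl (List.mem_append.2 (Or.inl h1)))))
    · exact List.mem_append.2 (Or.inr (List.mem_append.2 (Or.inr h1)))
  have hz2 : ∀ z ∈ e2.zip e2' ++ a.zip a', z ∈ [v].zip [v'] ++ (e1.zip e1' ++ e2.zip e2' ++ a.zip a') := by
    intro z hz
    rcases List.mem_append.1 hz with h1 | h1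
    · exact List.mem_append.2 (Or.inr (List.mem_append.2 (Or.inl (List.mem_append.2 (Or.inr h1)))))
    · exact List.mem_append.2 (Or.inr (List.mem_append.2 (Or.inr h1)))
  have he1 : ∀ z ∈ e1, z ∈ D := fun z hz => hxD z (List.mem_append.2 (Or.inl hz))
  have he2 : ∀ z ∈ e2, z ∈ D := fun z hz => hxD z (List.mem_append.2 (Or.inr hz))
  have hve2' : v' ∉ e2' := hv'.2.1
  have hve1' : v' ∉ e1' := fun h1 => hve2' (hs h1)
  have h2 : v ∈ w (ms (a ++ e2)) := (h.vv_iff hVBT he2 hvD hv'.1 hve2' hl2 hp2 hz2 hvp).1 hv'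
  have hsub : ms e1 ⊆ ms e2 := sub_left (bf_PI hp2) hl1 hl2
    (fun z hz => hz1 z (List.mem_append.2 (Or.inl hz)))
    (fun z hz => hz2 z (List.mem_append.2 (Or.inl hz))) hs
  have h3 : v ∈ w (ms (a ++ e1)) := by
    refine h.dir.2 _ _ (ms_finite (a ++ e2)) ?_ h2
    rw [ms_append, ms_append]
    exact union_subset_union_right _ hsub
  exact (h.vv_iff hVBT he1 hvD hv'.1 hve1' hl1 hp2 hz1 hvp).2 h3

end EDRaux

open EDRaux

theorem pf_EDR {C : Type} {c0 : C} (hEVB : EVB C c0) (hVBT : VBT C c0) (hCTR : CTR C)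
    (hMMK : MMK C c0) (hNFA : NFA C c0) : EDR C c0 := by
  classical
  intro b M w A S a D hom hM hcs hA0 hD hbig hlev N a' D' hN hD' hFB
  have h : Dat C c0 b M N w a a' D D' :=
    { hom := hom, hM := hM, hN := hN, dir := hcs.dir, wD := by rw [← hA0]; exact hD,
      cpD' := hD', len := hFB.1, ev := hEVB b M w A S a D hom hM hcs hA0 hD hbig hlev }
  have hbf := hFB.2
  -- the list of `B ∩ D'`
  have hlist : ∀ B : Set ℕ, B.Finite → ∃ e' : List ℕ, ms e' = B ∩ D' := fun B hB => by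
    obtain ⟨l, hl, -⟩ := exists_list (hB.inter_of_left D')
    exact ⟨l, hl⟩
  choose! L hL using hlist
  have hLD : ∀ B : Set ℕ, B.Finite → ∀ z ∈ L B, z ∈ D' := by
    intro B hB z hz
    have : z ∈ B ∩ D' := by rw [← hL B hB]; exact hz
    exact this.2
  have hcp : ∀ B : Set ℕ, B.Finite → IsCp N (ms (a' ++ L B)) (VV c0 b N a' D' (L B)) :=
    fun B hB => h.cp hVBT hCTR hbf (hLD B hB)
  choose! x hx using fun (B : Set ℕ) (hB : B.Finite) => (hcp B hB).nonempty
  have hdisj : ∀ B : Set ℕ, B.Finite → Disjoint (VV c0 b N a' D' (L B)) B := by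
    intro B hB
    rw [Set.disjoint_left]
    intro z hz hzB
    apply hz.2.1
    have : z ∈ B ∩ D' := ⟨hzB, hz.1⟩
    rw [← hL B hB] at this
    exact this
  have hxB : ∀ B : Set ℕ, B.Finite → x B ∉ B := fun B hB h1 =>
    Set.disjoint_left.1 (hdisj B hB) (hx B hB) h1
  -- `VV` lies in the component of `x B`
  have hVVsub : ∀ B : Set ℕ, B.Finite → VV c0 b N a' D' (L B) ⊆ cp N B (x B) := by
    intro B hB
    exact Cd.subset hN ((hcp B hB).cd hN) (isCp_cp (hxB B hB)) (hdisj B hB) (hx B hB)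
      (self_mem_cp (hxB B hB))
  have hdir : IsDir N (fun B => cp N B (x B)) := by
    refine ⟨fun B hB => isCp_cp (hxB B hB), ?_⟩
    intro A' B' hB' hAB
    have hA' : A'.Finite := hB'.subset hAB
    have h1 : VV c0 b N a' D' (L B') ⊆ VV c0 b N a' D' (L A') := by
      refine h.anti hVBT hbf (hLD A' hA') (hLD B' hB') ?_
      rw [hL A' hA', hL B' hB']
      exact inter_subset_inter_left _ hAB
    have h2 : x B' ∈ cp N A' (x A') := hVVsub A' hA' (h1 (hx B' hB'))
    intro z hz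
    have h3 : z ∈ cp N A' (x B') := Conn.mono hAB hz
    rwa [cp_eq hN h2] at h3
  refine ⟨fun B => cp N B (x B), hdir, ?_, ?_⟩
  · -- w' (ms a') = D'
    have h1 := hx (ms a') (ms_finite a')
    exact ((hdir.1 _ (ms_finite a')).eq_of_inter hN hD' (self_mem_cp (hxB _ (ms_finite a'))) h1.1)
  · intro e e' v v' hle he he' hv hv' hve hve' hp
    have hfin := ms_finite (a' ++ e')
    have hBD : ms (a' ++ e') ∩ D' = ms e' := by
      rw [ms_append]
      ext z
      constructor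
      · rintro ⟨h1 | h1, h2⟩
        · exact absurd h1 (Set.disjoint_left.1 hD'.disj h2)
        · exact h1
      · intro h1
        exact ⟨Or.inr h1, he' z h1⟩
    have hLe : ms (L (ms (a' ++ e'))) = ms e' := by rw [hL _ hfin, hBD]
    have hVV : VV c0 b N a' D' (L (ms (a' ++ e'))) = VV c0 b N a' D' e' :=
      Subset.antisymm (h.anti hVBT hbf he' (hLD _ hfin) hLe.ge)
        (h.anti hVBT hbf (hLD _ hfin) he' hLe.le)
    have hw' : cp N (ms (a' ++ e')) (x (ms (a' ++ e'))) = VV c0 b N a' D' e' := by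
      have h1 := h.cp hVBT hCTR hbf he'
      have h2 := hx _ hfin
      rw [hVV] at h2
      exact ((isCp_cp (hxB _ hfin)).eq_of_inter hN h1 (self_mem_cp (hxB _ hfin)) h2)
    show v ∈ w (ms (a ++ e)) ↔ v' ∈ cp N (ms (a' ++ e')) (x (ms (a' ++ e')))
    rw [hw', h.vv_iff hVBT he hv hv' hve' hle hp (fun z hz => List.mem_cons_of_mem _ hz)
      List.mem_cons_self]

end Pool.Agent.TK
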